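import Pool.Agent.Helper82.PT.Cy4

/-!
# The parity conjecture over cyclic 2-extensions of every number field, for a positive proportion of curves

Let `F` be ANY number field and `M / F` any CYCLIC extension of degree `2 ^ n`, `n ≥ 1` (for instance any
quadratic extension), in which all primes above `2` and all real places of `F` split completely.
Ramification at the other primes is arbitrary.

Theorem. For a positive proportion of the elliptic curves `E : y ^ 2 = x ^ 3 + A x + B` over `F`, ordered by
height, the parity conjecture holds for `E` over `M`, unconditionally: `(-1) ^ rk E(M) = w(E / M)`. More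
precisely `E(M)` is finite of odd order and `w(E / M) = 1`.

The local root numbers `w(E / M_v)` are signs; they are `1` if `E` has good reduction at `v` and `-1` if `E`
has split multiplicative reduction at `v`; and since `E` is defined over `F` they are the same for
primes which are conjugate under `Gal(M / F)`, for which the completions are isomorphic over the
completion of `F`. These properties are all that we use: we prove the equality for every function `w`
with these properties, in particular for the local root numbers defined by the local constants.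

The case of the Galois groups of order `2 ^ n` which are not cyclic is
`MP_02f36d_nt.TwoExtensionsEveryNumberField`, where the signs cancel in orbits. Here they do not: every
inert prime of bad reduction is its own orbit, and the quadratic reciprocity law over `F` is needed.

The proof. (1) `Sel_2(E / M) = 0` for a positive proportion, as in the non-cyclic case. The curves found
are the twists by `D` of curves `y ^ 2 = x ^ 3 + a x + b`, where `x ^ 3 + a x + b` is irreducible modulo the
primes over `2`, over `3` and over the discriminant of a generator of `M`, the discriminant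
`e = -(4 a ^ 3 + 27 b ^ 2)` is squarefree, and the primes dividing `D` split completely in `M`. (2) The
orbits with an odd number of primes are those of the primes `v` of `M` over a prime `w` of `F` inert in
`M / F`; then `w` does not divide `6 D` and `w_v = -1` exactly if `w` divides `e` (over the quadratic
extension of the residue field of `w` the tangents at the node are defined). Let `s ∈ M` with
`s ^ 2 = d ∈ F` and `F(s)` the quadratic subfield; `w ∤ 2` is inert in `M / F` exactly if `d` is not a square
in the completion of `F` at `w`. So the number of these `w` is even if the quadratic symbol of `d` modulo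
`(e)` is `1`. (3) `d` is a square at the primes over `2` and positive at the real places where it matters,
and `e` is prime to `d` and is a square modulo each prime dividing `d`, as a cubic irreducible over a
finite field has square discriminant. Hence the symbol is `1` by the quadratic reciprocity law over
`F`. Mathlib has this law over `ℚ` only; it is proved for every number field in `Helper82/RC`, by
transfer from `ℚ` (the matrices of the trace form, Gauss sums of lattices).
-/

set_option autoImplicit false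
set_option linter.all false

namespace Pool.Agent.Results.MP_02f36d_nt.CyclicTwoExtensions

open Filter NumberField IsDedekindDomain Polynomial
open scoped Classical

section family

variable (F : Type) [Field F] [NumberField F]

/-- The pairs of integers `(A, B)` of `F` with `4 A ^ 3 + 27 B ^ 2 ≠ 0` for which no nonzero prime ideal
`𝔭` satisfies both `𝔭 ^ 4 ∣ A` and `𝔭 ^ 6 ∣ B`. -/
def Family : Set (𝓞 F × 𝓞 F) :=
  {p | 4 * p.1 ^ 3 + 27 * p.2 ^ 2 ≠ 0 ∧
    ∀ 𝔭 : Ideal (𝓞 F), 𝔭.IsPrime → 𝔭 ≠ ⊥ → ¬ (p.1 ∈ 𝔭 ^ 4 ∧ p.2 ∈ 𝔭 ^ 6)}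

variable {F}

/-- The height `max_σ max (4 |σ A|³, 27 |σ B|²)`, over the embeddings `σ : F → ℂ`. -/
noncomputable def height (p : 𝓞 F × 𝓞 F) : ℝ :=
  ⨆ σ : F →+* ℂ, max (4 * ‖σ (p.1 : F)‖ ^ 3) (27 * ‖σ (p.2 : F)‖ ^ 2)

/-- The curve `E : y ^ 2 = x ^ 3 + A x + B` over `F`. -/
def curve (p : 𝓞 F × 𝓞 F) : WeierstrassCurve F := ⟨0, 0, 0, (p.1 : F), (p.2 : F)⟩

variable (F)

/-- The members of the family of height at most `X`. -/
def UpTo (X : ℝ) : Set (𝓞 F × 𝓞 F) := {p ∈ Family F | height p ≤ X}

end family

section reduction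

variable {M : Type} [Field M] [NumberField M]

/-- The coefficients of the equation are integral at the prime `v`. -/
structure IntegralAt (v : HeightOneSpectrum (𝓞 M)) (W : WeierstrassCurve M) : Prop where
  a₁ : v.valuation M W.a₁ ≤ 1
  a₂ : v.valuation M W.a₂ ≤ 1
  a₃ : v.valuation M W.a₃ ≤ 1
  a₄ : v.valuation M W.a₄ ≤ 1
  a₆ : v.valuation M W.a₆ ≤ 1

/-- Good reduction at `v`: there is a Weierstrass equation with coefficients integral at `v` whose
discriminant is a unit at `v`. -/
def GoodReduction (v : HeightOneSpectrum (𝓞 M)) (W : WeierstrassCurve M) : Prop :=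
  ∃ C : WeierstrassCurve.VariableChange M, IntegralAt v (C • W) ∧ v.valuation M (C • W).Δ = 1

/-- Split multiplicative reduction at `v`: there is a Weierstrass equation with coefficients
integral at `v` whose reduction has the singular point `(0, 0)` (`a₃`, `a₄`, `a₆` are zero modulo `v`),
which is a node (`b₂ = a₁ ^ 2 + 4 a₂` is a unit at `v`) with tangents `y = α x` defined over the residue
field (`α ^ 2 + a₁ α - a₂` is zero modulo `v`). -/
def SplitMultiplicative (v : HeightOneSpectrum (𝓞 M)) (W : WeierstrassCurve M) : Prop :=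
  ∃ C : WeierstrassCurve.VariableChange M, IntegralAt v (C • W) ∧
    v.valuation M (C • W).a₃ < 1 ∧ v.valuation M (C • W).a₄ < 1 ∧ v.valuation M (C • W).a₆ < 1 ∧
    v.valuation M (C • W).b₂ = 1 ∧
    ∃ α : M, v.valuation M α ≤ 1 ∧
      v.valuation M (α ^ 2 + (C • W).a₁ * α - (C • W).a₂) < 1

end reduction

section root

variable (F M : Type) [Field F] [NumberField F] [Field M] [NumberField M] [Algebra F M]

/-- The properties of the local root numbers `w(E / M_v)` at the primes `v` of `M`, for an elliptic
curve `E` over `F`, which we use: they are signs, `1` for good reduction, `-1` for split multiplicative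
reduction, and the same for primes conjugate over `F`. -/
structure LocalRootNumbers (E : WeierstrassCurve F) (w : HeightOneSpectrum (𝓞 M) → ℤ) :
    Prop where
  sign : ∀ v, w v = 1 ∨ w v = -1
  good : ∀ v, GoodReduction v (E.baseChange M) → w v = 1
  split : ∀ v, SplitMultiplicative v (E.baseChange M) → w v = -1
  conj : ∀ (σ : M ≃ₐ[F] M) (v v' : HeightOneSpectrum (𝓞 M)),
    (∀ x : M, v'.valuation M x = v.valuation M (σ x)) → w v' = w v

/-- The global root number: the product of the local root numbers at all places; it is `-1` at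
every infinite place. -/
noncomputable def rootNumber (w : HeightOneSpectrum (𝓞 M) → ℤ) : ℤ :=
  (-1) ^ Nat.card (InfinitePlace M) * ∏ᶠ v, w v

variable {F}

/-- The group `E(M)`. -/
abbrev points (p : 𝓞 F × 𝓞 F) : Type := ((curve p).baseChange M).toAffine.Point

/-- The rank of `E(M)`. -/
noncomputable def rank (p : 𝓞 F × 𝓞 F) : ℕ := Module.finrank ℤ (points M p)

/-- The parity conjecture holds for `E` over `M`, with `E(M)` finite of odd order and root number `1`:
for every system of local root numbers (such systems exist, and there are only finitely many primes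
with `w v ≠ 1`) `(-1) ^ rank = w(E / M)`. -/
structure ParityHolds (p : 𝓞 F × 𝓞 F) : Prop where
  points_finite : Finite (points M p)
  odd : Odd (Nat.card (points M p))
  rank_zero : rank M p = 0
  exist : ∃ w, LocalRootNumbers F M (curve p) w
  finite : ∀ w, LocalRootNumbers F M (curve p) w → {v | w v ≠ 1}.Finite
  one : ∀ w, LocalRootNumbers F M (curve p) w → rootNumber M w = 1
  parity : ∀ w, LocalRootNumbers F M (curve p) w → (-1) ^ rank M p = rootNumber M w

end root

section tr

variable {F M : Type} [Field F] [NumberField F] [Field M] [NumberField M] [Algebra F M]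

theorem int_iff (v : HeightOneSpectrum (𝓞 M)) (W : WeierstrassCurve M) :
    IntegralAt v W ↔ Pool.Agent.N922.PX.IntegralAt v W :=
  ⟨fun h => ⟨h.1, h.2, h.3, h.4, h.5⟩, fun h => ⟨h.1, h.2, h.3, h.4, h.5⟩⟩

theorem good_iff (v : HeightOneSpectrum (𝓞 M)) (W : WeierstrassCurve M) :
    GoodReduction v W ↔ Pool.Agent.N922.PX.GoodReduction v W := by
  unfold GoodReduction Pool.Agent.N922.PX.GoodReduction
  simp only [int_iff]

theorem split_iff (v : HeightOneSpectrum (𝓞 M)) (W : WeierstrassCurve M) :
    SplitMultiplicative v W ↔ Pool.Agent.N922.PX.SplitMultiplicative v W := by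
  unfold SplitMultiplicative Pool.Agent.N922.PX.SplitMultiplicative
  simp only [int_iff]

theorem local_iff (E : WeierstrassCurve F) (w : HeightOneSpectrum (𝓞 M) → ℤ) :
    LocalRootNumbers F M E w ↔ Pool.Agent.Helper82.PT.Rn.LocF F M E w := by
  constructor
  · rintro ⟨h1, h2, h3, h4⟩
    exact ⟨h1, fun v h => h2 v ((good_iff v _).2 h), fun v h => h3 v ((split_iff v _).2 h), h4⟩
  · rintro ⟨h1, h2, h3, h4⟩
    exact ⟨h1, fun v h => h2 v ((good_iff v _).1 h), fun v h => h3 v ((split_iff v _).1 h), h4⟩

theorem crv_iff (X : ℝ) (p : 𝓞 F × 𝓞 F) : Pool.Agent.N783.PF.Crv X p ↔ p ∈ UpTo F X := by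
  have hb : BddAbove (Set.range fun σ : F →+* ℂ =>
      max (4 * ‖σ (p.1 : F)‖ ^ 3) (27 * ‖σ (p.2 : F)‖ ^ 2)) := Set.Finite.bddAbove (Set.finite_range _)
  constructor
  · rintro ⟨h1, h2, h3⟩
    refine ⟨⟨h1, h2⟩, ciSup_le fun σ => max_le (h3 σ).1 (h3 σ).2⟩
  · rintro ⟨⟨h1, h2⟩, h3⟩
    refine ⟨h1, h2, fun σ => ?_⟩
    have h4 := (le_ciSup hb σ).trans h3
    exact ⟨(le_max_left _ _).trans h4, (le_max_right _ _).trans h4⟩

theorem rank_eq_zero_of (p : 𝓞 F × 𝓞 F) (h : Finite (points M p)) : rank M p = 0 := by
  unfold rank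
  haveI := h
  refine Module.finrank_eq_zero_of_rank_eq_zero ?_
  rw [_root_.rank_eq_zero_iff]
  intro x
  refine ⟨(Nat.card (points M p) : ℤ), by exact_mod_cast Nat.card_pos.ne', ?_⟩
  rw [natCast_zsmul]
  exact card_nsmul_eq_zero'

theorem pts_of (p : 𝓞 F × 𝓞 F)
    (h1 : Finite (Pool.Agent.TH115.GD.Pt
      (Pool.Agent.N874.PP.sW (algebraMap F M (p.1 : F)) (algebraMap F M (p.2 : F))) M))
    (h2 : Odd (Nat.card (Pool.Agent.TH115.GD.Pt
      (Pool.Agent.N874.PP.sW (algebraMap F M (p.1 : F)) (algebraMap F M (p.2 : F))) M))) :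
    Finite (points M p) ∧ Odd (Nat.card (points M p)) := by
  have e : (Pool.Agent.N874.PP.sW (algebraMap F M (p.1 : F)) (algebraMap F M (p.2 : F))).baseChange M =
      (curve p).baseChange M := by
    apply WeierstrassCurve.ext <;>
      simp [Pool.Agent.N874.PP.sW, curve, WeierstrassCurve.baseChange]
  have key : ∀ W : WeierstrassCurve M,
      (Pool.Agent.N874.PP.sW (algebraMap F M (p.1 : F)) (algebraMap F M (p.2 : F))).baseChange M = W →
      Finite W.toAffine.Point ∧ Odd (Nat.card W.toAffine.Point) := by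
    rintro W rfl
    exact ⟨h1, h2⟩
  exact key _ e

end tr

/-- The second generator of `M`: the discriminant multiplied by a nonzero number. -/
theorem gen_mul {M : Type} [Field M] [NumberField M] {γ : M} {μ : ℤ[X]} {δ : ℕ}
    (h : Pool.Agent.N874.QM.Gen ℚ γ μ δ) {k : ℕ} (hk : k ≠ 0) :
    Pool.Agent.N874.QM.Gen ℚ γ μ (δ * k) := by
  refine ⟨h.top, h.monic, h.root, mul_ne_zero h.ne hk, ?_⟩
  obtain ⟨u, w, e⟩ := h.comb
  refine ⟨C (k : ℤ) * u, C (k : ℤ) * w, ?_⟩
  have e1 : ((δ * k : ℕ) : ℤ) = (δ : ℤ) * (k : ℤ) := by push_cast; ring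
  rw [e1, C_mul, e]
  ring

/-- Let `F` be any number field and `M / F` a cyclic extension of degree `2 ^ n`, `n ≥ 1`, such that every
prime `v` of `F` above `2` splits completely in `M` (`M` embeds over `F` in the completion of `F` at `v`)
and every real place of `F` splits completely in `M` (every embedding of `F` in `ℝ` extends to `M`).
There is `c > 0` such that for all large `X` at least `c` times the number of all members of the family
of height at most `X` satisfy the parity conjecture over `M`, `(-1) ^ rk E(M) = w(E / M)`, with `E(M)`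
finite of odd order and `w(E / M) = 1`. -/
theorem result (F M : Type) [Field F] [NumberField F] [Field M] [NumberField M] [Algebra F M]
    [IsGalois F M] (n : ℕ) (h1n : 1 ≤ n) (hn : Module.finrank F M = 2 ^ n)
    (hc : IsCyclic (M ≃ₐ[F] M))
    (h2 : ∀ v : HeightOneSpectrum (𝓞 F), (2 : 𝓞 F) ∈ v.asIdeal →
      Nonempty (M →ₐ[F] v.adicCompletion F))
    (hr : ∀ σ : F →+* ℝ, ∃ ρ : M →+* ℝ, ρ.comp (algebraMap F M) = σ) :
    (∀ X : ℝ, (UpTo F X).Finite) ∧
    ∃ c : ℝ, 0 < c ∧ ∀ᶠ X : ℝ in atTop,
      0 < (UpTo F X).ncard ∧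
      c * ((UpTo F X).ncard : ℝ) ≤ ({p ∈ UpTo F X | ParityHolds M p}.ncard : ℝ) := by
  have hset : ∀ X : ℝ, UpTo F X = {p : 𝓞 F × 𝓞 F | Pool.Agent.N783.PF.Crv X p} := by
    intro X
    ext p
    exact (crv_iff X p).symm
  obtain ⟨σ, s, d, hgen, hord, hs0, hd, hσ⟩ := Pool.Agent.Helper82.PT.Cy.exists_s hn h1n hc
  have hd0 : d ≠ 0 := by
    rintro rfl
    rw [map_zero] at hd
    exact hs0 (pow_eq_zero_iff (two_ne_zero)|>.1 hd.symm)
  obtain ⟨γ, μ, δ₀, hγ₀, -⟩ := Pool.Agent.N160.QM.gen M
  have hN0 : Ideal.absNorm (Ideal.span {d}) ≠ 0 := by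
    rw [Ne, Ideal.absNorm_eq_zero_iff, Ideal.span_singleton_eq_bot]
    exact hd0
  have hk0 : 6 * ((NumberField.discr F).natAbs * Ideal.absNorm (Ideal.span {d})) ≠ 0 :=
    mul_ne_zero (by norm_num) (mul_ne_zero (Int.natAbs_ne_zero.2 (NumberField.discr_ne_zero F)) hN0)
  have hγ := gen_mul hγ₀ hk0
  set δ : ℕ := δ₀ * (6 * ((NumberField.discr F).natAbs * Ideal.absNorm (Ideal.span {d}))) with hδ
  have hδ2 : 2 ∣ δ := Dvd.dvd.mul_left (Dvd.dvd.mul_right (by norm_num) _) _
  have hδ3 : 3 ∣ δ := Dvd.dvd.mul_left (Dvd.dvd.mul_right (by norm_num) _) _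
  have hδF : ∀ q : ℕ, q.Prime → (q : ℤ) ∣ NumberField.discr F → q ∣ δ := fun q _ h =>
    Dvd.dvd.mul_left (Dvd.dvd.mul_left (Dvd.dvd.mul_right (Int.natCast_dvd.1 h) _) _) _
  have hδd : ∀ w₀ : HeightOneSpectrum (𝓞 F), d ∈ w₀.asIdeal → (δ : 𝓞 F) ∈ w₀.asIdeal := by
    intro w₀ h
    have h1 : ((Ideal.absNorm (Ideal.span {d}) : ℕ) : 𝓞 F) ∈ w₀.asIdeal :=
      (Ideal.span_singleton_le_iff_mem _).2 h (Ideal.absNorm_mem _)
    rw [hδ]
    push_cast
    exact Ideal.mul_mem_left _ _ (Ideal.mul_mem_left _ _ (Ideal.mul_mem_left _ _ h1))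
  obtain ⟨c, hc0, Y₀, h⟩ := Pool.Agent.Helper82.PT.finM F M h2 hr n hn hγ
  have hfin : ∀ X : ℝ, (UpTo F X).Finite := fun X => by
    rw [hset]
    exact (h X).1
  refine ⟨hfin, c, hc0, ?_⟩
  filter_upwards [eventually_ge_atTop Y₀] with X hX
  obtain ⟨h1, h3⟩ := (h X).2 hX
  rw [← hset] at h1 h3
  refine ⟨h1, h3.trans ?_⟩
  have h4 : {p : 𝓞 F × 𝓞 F | Pool.Agent.N783.PF.Crv X p ∧ Pool.Agent.Helper82.PT.GoodP F M δ p} ⊆
      {p ∈ UpTo F X | ParityHolds M p} := by
    rintro p ⟨hp, hg⟩
    have hp' := (crv_iff X p).1 hp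
    refine ⟨hp', ?_⟩
    obtain ⟨k1, k2⟩ := pts_of p hg.fin hg.odd
    have k3 : rank M p = 0 := rank_eq_zero_of p k1
    have k4 : ∀ w, LocalRootNumbers F M (curve p) w →
        {v | w v ≠ 1}.Finite ∧ rootNumber M w = 1 := fun w hw =>
      Pool.Agent.Helper82.PT.Cy.root_one_cyc h2 hr hn h1n hgen hord hs0 hd hσ hδ2 hδ3 hδF hδd
        hp'.1.1 hg ((local_iff (curve p) w).1 hw)
    obtain ⟨w, hw'⟩ := Pool.Agent.Helper82.PT.Rn.exists_local M (curve p)
    exact ⟨k1, k2, k3, ⟨w, (local_iff _ w).2 hw'⟩, fun w hw => (k4 w hw).1, fun w hw => (k4 w hw).2,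
      fun w hw => by rw [k3, pow_zero, (k4 w hw).2]⟩
  exact Nat.cast_le.2 (Set.ncard_le_ncard h4 ((hfin X).subset fun p hp => hp.1))

end Pool.Agent.Results.MP_02f36d_nt.CyclicTwoExtensions
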