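import Pool.Agent.Helper82.NG.Fin

/-!
# The parity conjecture over all non-Galois subextensions of a 2-extension at once

Let `F` be ANY number field and `L / F` any Galois extension of degree `2 ^ n` in which all primes above `2`
and all real places of `F` split completely. Ramification at the other primes is arbitrary.

Theorem. For a positive proportion of the elliptic curves `E : y ^ 2 = x ^ 3 + A x + B` over `F`, ordered by
height, the parity conjecture holds, unconditionally, for `E` over ALL the fields `K`, `F ⊆ K ⊆ L`,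
which are NOT Galois over `F`: `(-1) ^ rk E(K) = w(E / K)`. More precisely `E(K)` is finite of odd order and
`w(E / K) = 1`. (For instance the non-Galois quartic fields `K = F(√(a + b √c))` with the group `D_4`.)

The local root numbers `w(E / K_v)` are signs; they are `1` if `E` has good reduction at `v` and `-1` if `E`
has split multiplicative reduction at `v`; and since `E` is defined over `F` they are the same for
primes which are conjugate under the automorphisms of `K / F`, for which the completions are
isomorphic over the completion of `F`. These properties are all that we use: we prove the equality for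
every function `w` with these properties, in particular for the local root numbers defined by the
local constants.

The Galois case is `TwoExtensionsEveryNumberField` and `CyclicTwoExtensions`, where the signs are counted
in the orbits of `Gal(K / F)`. Here `K / F` has few automorphisms.

The proof. (1) `Sel_2(E / L) = 0` for a positive proportion, so `E(L)` and `E(K)` are finite of odd order.
(2) As `K ≠ F` is contained in a Galois 2-extension, the number of the automorphisms of `K / F` is
congruent to `[K : F]` modulo 2, so it is even, and `K` is a quadratic extension of a field `P` which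
contains `F`. (3) The structure of the curves, twists by `D` of curves `y ^ 2 = x ^ 3 + a x + b` with
squarefree `4 a ^ 3 + 27 b ^ 2` and irreducible reductions, passes from `F` to `P`: a cubic polynomial stays
irreducible over the residue fields of `P`, as their degrees are powers of `2`; the primes which
ramify in `P / F` do not divide `4 a ^ 3 + 27 b ^ 2`; the primes over `D` are not stable in `K / P`; the primes
over `2` and the real places of `P` split completely in `K / P`: the embedding of `L` in the completion
of `F` gives one in the completion of `P` over `P`, as `F` is dense in it. (4) Now the method of the cyclic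
case for `K / P`, with the quadratic reciprocity law over the number field `P`, gives `w(E / K) = 1`.
-/

set_option autoImplicit false
set_option linter.all false

namespace Pool.Agent.Results.MP_02f36d_nt.NonGaloisTwoExtensions

open Filter NumberField IsDedekindDomain Polynomial
open scoped Classical

section family

variable (F : Type) [Field F] [NumberField F]

/-- The pairs of integers `(A, B)` of `F` with `4 A ^ 3 + 27 B ^ 2 ≠ 0` for which no nonzero prime ideal
`𝔭` satisfies both `𝔭 ^ 4 ∣ A` and `𝔭 ^ 6 ∣ B`. -/
def Family : Set (𝓞 F × 𝓞 F) :=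
  {p | 4 * p.1 ^ 3 + 27 * p.2 ^ 2 ≠ 0 ∧
    ∀ 𝔭 : Ideal (𝓞 F), 𝔭.IsPrime → 𝔭 ≠ ⊥ → ¬ (p.1 ∈ 𝔭 ^ 4 ∧ p.2 ∈ 𝔭 ^ 6)}

variable {F}

/-- The height `max_σ max (4 |σ A|³, 27 |σ B|²)`, over the embeddings `σ : F → ℂ`. -/
noncomputable def height (p : 𝓞 F × 𝓞 F) : ℝ :=
  ⨆ σ : F →+* ℂ, max (4 * ‖σ (p.1 : F)‖ ^ 3) (27 * ‖σ (p.2 : F)‖ ^ 2)

/-- The curve `E : y ^ 2 = x ^ 3 + A x + B` over `F`. -/
def curve (p : 𝓞 F × 𝓞 F) : WeierstrassCurve F := ⟨0, 0, 0, (p.1 : F), (p.2 : F)⟩

variable (F)

/-- The members of the family of height at most `X`. -/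
def UpTo (X : ℝ) : Set (𝓞 F × 𝓞 F) := {p ∈ Family F | height p ≤ X}

end family

section reduction

variable {M : Type} [Field M] [NumberField M]

/-- The coefficients of the equation are integral at the prime `v`. -/
structure IntegralAt (v : HeightOneSpectrum (𝓞 M)) (W : WeierstrassCurve M) : Prop where
  a₁ : v.valuation M W.a₁ ≤ 1
  a₂ : v.valuation M W.a₂ ≤ 1
  a₃ : v.valuation M W.a₃ ≤ 1
  a₄ : v.valuation M W.a₄ ≤ 1
  a₆ : v.valuation M W.a₆ ≤ 1

/-- Good reduction at `v`: there is a Weierstrass equation with coefficients integral at `v` whose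
discriminant is a unit at `v`. -/
def GoodReduction (v : HeightOneSpectrum (𝓞 M)) (W : WeierstrassCurve M) : Prop :=
  ∃ C : WeierstrassCurve.VariableChange M, IntegralAt v (C • W) ∧ v.valuation M (C • W).Δ = 1

/-- Split multiplicative reduction at `v`: there is a Weierstrass equation with coefficients
integral at `v` whose reduction has the singular point `(0, 0)` (`a₃`, `a₄`, `a₆` are zero modulo `v`),
which is a node (`b₂ = a₁ ^ 2 + 4 a₂` is a unit at `v`) with tangents `y = α x` defined over the residue
field (`α ^ 2 + a₁ α - a₂` is zero modulo `v`). -/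
def SplitMultiplicative (v : HeightOneSpectrum (𝓞 M)) (W : WeierstrassCurve M) : Prop :=
  ∃ C : WeierstrassCurve.VariableChange M, IntegralAt v (C • W) ∧
    v.valuation M (C • W).a₃ < 1 ∧ v.valuation M (C • W).a₄ < 1 ∧ v.valuation M (C • W).a₆ < 1 ∧
    v.valuation M (C • W).b₂ = 1 ∧
    ∃ α : M, v.valuation M α ≤ 1 ∧
      v.valuation M (α ^ 2 + (C • W).a₁ * α - (C • W).a₂) < 1

end reduction

section root

variable (F M : Type) [Field F] [NumberField F] [Field M] [NumberField M] [Algebra F M]

/-- The properties of the local root numbers `w(E / M_v)` at the primes `v` of `M`, for an elliptic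
curve `E` over `F`, which we use: they are signs, `1` for good reduction, `-1` for split multiplicative
reduction, and the same for primes conjugate under the automorphisms of `M / F`. -/
structure LocalRootNumbers (E : WeierstrassCurve F) (w : HeightOneSpectrum (𝓞 M) → ℤ) :
    Prop where
  sign : ∀ v, w v = 1 ∨ w v = -1
  good : ∀ v, GoodReduction v (E.baseChange M) → w v = 1
  split : ∀ v, SplitMultiplicative v (E.baseChange M) → w v = -1
  conj : ∀ (σ : M ≃ₐ[F] M) (v v' : HeightOneSpectrum (𝓞 M)),
    (∀ x : M, v'.valuation M x = v.valuation M (σ x)) → w v' = w v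

/-- The global root number: the product of the local root numbers at all places; it is `-1` at
every infinite place. -/
noncomputable def rootNumber (w : HeightOneSpectrum (𝓞 M) → ℤ) : ℤ :=
  (-1) ^ Nat.card (InfinitePlace M) * ∏ᶠ v, w v

variable {F}

/-- The group `E(M)`. -/
abbrev points (p : 𝓞 F × 𝓞 F) : Type := ((curve p).baseChange M).toAffine.Point

/-- The rank of `E(M)`. -/
noncomputable def rank (p : 𝓞 F × 𝓞 F) : ℕ := Module.finrank ℤ (points M p)

/-- The parity conjecture holds for `E` over `M`, with `E(M)` finite of odd order and root number `1`: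
for every system of local root numbers (such systems exist, and there are only finitely many primes
with `w v ≠ 1`) `(-1) ^ rank = w(E / M)`. -/
structure ParityHolds (p : 𝓞 F × 𝓞 F) : Prop where
  points_finite : Finite (points M p)
  odd : Odd (Nat.card (points M p))
  rank_zero : rank M p = 0
  exist : ∃ w, LocalRootNumbers F M (curve p) w
  finite : ∀ w, LocalRootNumbers F M (curve p) w → {v | w v ≠ 1}.Finite
  one : ∀ w, LocalRootNumbers F M (curve p) w → rootNumber M w = 1
  parity : ∀ w, LocalRootNumbers F M (curve p) w → (-1) ^ rank M p = rootNumber M w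

end root

section tr

variable {F M : Type} [Field F] [NumberField F] [Field M] [NumberField M] [Algebra F M]

theorem int_iff (v : HeightOneSpectrum (𝓞 M)) (W : WeierstrassCurve M) :
    IntegralAt v W ↔ Pool.Agent.N922.PX.IntegralAt v W :=
  ⟨fun h => ⟨h.1, h.2, h.3, h.4, h.5⟩, fun h => ⟨h.1, h.2, h.3, h.4, h.5⟩⟩

theorem good_iff (v : HeightOneSpectrum (𝓞 M)) (W : WeierstrassCurve M) :
    GoodReduction v W ↔ Pool.Agent.N922.PX.GoodReduction v W := by
  unfold GoodReduction Pool.Agent.N922.PX.GoodReduction
  simp only [int_iff]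

theorem split_iff (v : HeightOneSpectrum (𝓞 M)) (W : WeierstrassCurve M) :
    SplitMultiplicative v W ↔ Pool.Agent.N922.PX.SplitMultiplicative v W := by
  unfold SplitMultiplicative Pool.Agent.N922.PX.SplitMultiplicative
  simp only [int_iff]

theorem local_iff (E : WeierstrassCurve F) (w : HeightOneSpectrum (𝓞 M) → ℤ) :
    LocalRootNumbers F M E w ↔ Pool.Agent.Helper82.PT.Rn.LocF F M E w := by
  constructor
  · rintro ⟨h1, h2, h3, h4⟩
    exact ⟨h1, fun v h => h2 v ((good_iff v _).2 h), fun v h => h3 v ((split_iff v _).2 h), h4⟩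
  · rintro ⟨h1, h2, h3, h4⟩
    exact ⟨h1, fun v h => h2 v ((good_iff v _).1 h), fun v h => h3 v ((split_iff v _).1 h), h4⟩

theorem crv_iff (X : ℝ) (p : 𝓞 F × 𝓞 F) : Pool.Agent.N783.PF.Crv X p ↔ p ∈ UpTo F X := by
  have hb : BddAbove (Set.range fun σ : F →+* ℂ =>
      max (4 * ‖σ (p.1 : F)‖ ^ 3) (27 * ‖σ (p.2 : F)‖ ^ 2)) := Set.Finite.bddAbove (Set.finite_range _)
  constructor
  · rintro ⟨h1, h2, h3⟩
    refine ⟨⟨h1, h2⟩, ciSup_le fun σ => max_le (h3 σ).1 (h3 σ).2⟩
  · rintro ⟨⟨h1, h2⟩, h3⟩
    refine ⟨h1, h2, fun σ => ?_⟩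
    have h4 := (le_ciSup hb σ).trans h3
    exact ⟨(le_max_left _ _).trans h4, (le_max_right _ _).trans h4⟩

theorem rank_eq_zero_of (p : 𝓞 F × 𝓞 F) (h : Finite (points M p)) : rank M p = 0 := by
  unfold rank
  haveI := h
  refine Module.finrank_eq_zero_of_rank_eq_zero ?_
  rw [_root_.rank_eq_zero_iff]
  intro x
  refine ⟨(Nat.card (points M p) : ℤ), by exact_mod_cast Nat.card_pos.ne', ?_⟩
  rw [natCast_zsmul]
  exact card_nsmul_eq_zero'

end tr

/-- Let `F` be any number field and `L / F` a Galois extension of degree `2 ^ n`, such that every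
prime `v` of `F` above `2` splits completely in `L` (`L` embeds over `F` in the completion of `F` at `v`)
and every real place of `F` splits completely in `L` (every embedding of `F` in `ℝ` extends to `L`).
There is `c > 0` such that for all large `X` at least `c` times the number of all members of the family
of height at most `X` satisfy the parity conjecture `(-1) ^ rk E(K) = w(E / K)`, with `E(K)` finite of odd
order and `w(E / K) = 1`, over all the intermediate fields `K` of `L / F` at once which are not Galois
over `F`. -/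
theorem result (F L : Type) [Field F] [NumberField F] [Field L] [NumberField L] [Algebra F L]
    [IsGalois F L] (n : ℕ) (hn : Module.finrank F L = 2 ^ n)
    (h2 : ∀ v : HeightOneSpectrum (𝓞 F), (2 : 𝓞 F) ∈ v.asIdeal →
      Nonempty (L →ₐ[F] v.adicCompletion F))
    (hr : ∀ σ : F →+* ℝ, ∃ ρ : L →+* ℝ, ρ.comp (algebraMap F L) = σ) :
    (∀ X : ℝ, (UpTo F X).Finite) ∧
    ∃ c : ℝ, 0 < c ∧ ∀ᶠ X : ℝ in atTop,
      0 < (UpTo F X).ncard ∧
      c * ((UpTo F X).ncard : ℝ) ≤
        ({p ∈ UpTo F X | ∀ K : IntermediateField F L, ¬ IsGalois F K → ParityHolds K p}.ncard : ℝ) := by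
  have hset : ∀ X : ℝ, UpTo F X = {p : 𝓞 F × 𝓞 F | Pool.Agent.N783.PF.Crv X p} := by
    intro X
    ext p
    exact (crv_iff X p).symm
  obtain ⟨c, hc0, Y₀, h⟩ := Pool.Agent.Helper82.NG.all_K F L h2 hr n hn
  have hfin : ∀ X : ℝ, (UpTo F X).Finite := fun X => by
    rw [hset]
    exact (h X).1
  refine ⟨hfin, c, hc0, ?_⟩
  filter_upwards [eventually_ge_atTop Y₀] with X hX
  obtain ⟨h1, h3⟩ := (h X).2 hX
  rw [← hset] at h1 h3
  refine ⟨h1, h3.trans ?_⟩
  have h4 : {p : 𝓞 F × 𝓞 F | Pool.Agent.N783.PF.Crv X p ∧ ∀ K : IntermediateField F L,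
      ¬ IsGalois F K → Pool.Agent.Helper82.OD.GoodK F K p} ⊆
      {p ∈ UpTo F X | ∀ K : IntermediateField F L, ¬ IsGalois F K → ParityHolds K p} := by
    rintro p ⟨hp, hg⟩
    refine ⟨(crv_iff X p).1 hp, ?_⟩
    intro K hK
    have hgK := hg K hK
    have k1 : Finite (points K p) := hgK.fin
    have k3 : rank K p = 0 := rank_eq_zero_of p k1
    have k4 : ∀ w, LocalRootNumbers F K (curve p) w →
        {v | w v ≠ 1}.Finite ∧ rootNumber K w = 1 := fun w hw =>
      hgK.root w ((local_iff (curve p) w).1 hw)
    obtain ⟨w, hw'⟩ := Pool.Agent.Helper82.PT.Rn.exists_local K (curve p)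
    exact ⟨k1, hgK.odd, k3, ⟨w, (local_iff _ w).2 hw'⟩, fun w hw => (k4 w hw).1,
      fun w hw => (k4 w hw).2, fun w hw => by rw [k3, pow_zero, (k4 w hw).2]⟩
  exact Nat.cast_le.2 (Set.ncard_le_ncard h4 ((hfin X).subset fun p hp => hp.1))

end Pool.Agent.Results.MP_02f36d_nt.NonGaloisTwoExtensions
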