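import Pool.Agent.Helper82.OD.Two

/-!
# The parity conjecture over infinitely many extensions at once: groups with a normal 2-complement

Let `F` be ANY number field and `K / F` any Galois extension of degree `2 ^ n`, `n ≥ 1` (for instance any
quadratic extension), in which all primes above `2` and all real places of `F` split completely.
Ramification at the other primes is arbitrary.

Theorem. For a positive proportion of the elliptic curves `E : y ^ 2 = x ^ 3 + A x + B` over `F`, ordered by
height, the parity conjecture holds, unconditionally, for `E` over ALL the (infinitely many) Galois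
extensions `M / F` which contain `K` with `[M : K]` odd, `M ≠ K`: `(-1) ^ rk E(M) = w(E / M)`. More
precisely `w(E / M) = 1`, and the rank of `E(M)` is even; it may be positive.

So this is about the Galois groups `G = Gal(M / F)` which are not 2-groups, with a normal subgroup of odd
order and 2-power index `≥ 2` (a normal 2-complement), for instance all abelian and nilpotent groups of
even order, all dihedral groups of order `2 m`, `m` odd, and all groups with a cyclic Sylow 2-subgroup
(Frobenius, Burnside). No condition on the primes which split or ramify in `M / K`. The 2-groups `G`, where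
`E(M)` is finite, are treated in `TwoExtensionsEveryNumberField` and `CyclicTwoExtensions`.

The local root numbers `w(E / M_v)` are signs; they are `1` if `E` has good reduction at `v` and `-1` if `E`
has split multiplicative reduction at `v`; and since `E` is defined over `F` they are the same for
primes which are conjugate under `Gal(M / F)`, for which the completions are isomorphic over the
completion of `F`. These properties are all that we use: we prove the equality for every function `w`
with these properties, in particular for the local root numbers defined by the local constants.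

The proof. By the two theorems on 2-groups, `E(K)` is finite and `w(E / K) = 1`, for every system of local
root numbers over `K`, for a positive proportion of all `E`. (1) `N = Gal(M / K)` acts on `V = E(M) ⊗ ℚ` with
`V ^ N = E(K) ⊗ ℚ = 0`. A group `N` of odd order without invariants in `V` leaves a nonzero alternating form
invariant: else `∑_g χ(g) ^ 2 = ∑_g χ(g ^ 2) = ∑_g χ(g) = 0` for the character `χ` of `V`, by comparing the traces
of the averaging operator on the bilinear forms with and without transposition. The form is
not degenerate on `V` modulo its radical, and induction on the dimension shows that `dim V` is even.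
(2) A system of local root numbers over `M` gives one over `K`, as the primes of `M` over the same prime
of `K` are conjugate and automorphisms of `K / F` can be lifted to `M`; the number of places of `M` over a
place of `K` is odd; so `w(E / M) = w(E / K) = 1`.
-/

set_option autoImplicit false
set_option linter.all false

namespace Pool.Agent.Results.MP_02f36d_nt.NormalTwoComplement

open Filter NumberField IsDedekindDomain Polynomial
open scoped Classical

section family

variable (F : Type) [Field F] [NumberField F]

/-- The pairs of integers `(A, B)` of `F` with `4 A ^ 3 + 27 B ^ 2 ≠ 0` for which no nonzero prime ideal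
`𝔭` satisfies both `𝔭 ^ 4 ∣ A` and `𝔭 ^ 6 ∣ B`. -/
def Family : Set (𝓞 F × 𝓞 F) :=
  {p | 4 * p.1 ^ 3 + 27 * p.2 ^ 2 ≠ 0 ∧
    ∀ 𝔭 : Ideal (𝓞 F), 𝔭.IsPrime → 𝔭 ≠ ⊥ → ¬ (p.1 ∈ 𝔭 ^ 4 ∧ p.2 ∈ 𝔭 ^ 6)}

variable {F}

/-- The height `max_σ max (4 |σ A|³, 27 |σ B|²)`, over the embeddings `σ : F → ℂ`. -/
noncomputable def height (p : 𝓞 F × 𝓞 F) : ℝ :=
  ⨆ σ : F →+* ℂ, max (4 * ‖σ (p.1 : F)‖ ^ 3) (27 * ‖σ (p.2 : F)‖ ^ 2)

/-- The curve `E : y ^ 2 = x ^ 3 + A x + B` over `F`. -/
def curve (p : 𝓞 F × 𝓞 F) : WeierstrassCurve F := ⟨0, 0, 0, (p.1 : F), (p.2 : F)⟩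

variable (F)

/-- The members of the family of height at most `X`. -/
def UpTo (X : ℝ) : Set (𝓞 F × 𝓞 F) := {p ∈ Family F | height p ≤ X}

end family

section reduction

variable {M : Type} [Field M] [NumberField M]

/-- The coefficients of the equation are integral at the prime `v`. -/
structure IntegralAt (v : HeightOneSpectrum (𝓞 M)) (W : WeierstrassCurve M) : Prop where
  a₁ : v.valuation M W.a₁ ≤ 1
  a₂ : v.valuation M W.a₂ ≤ 1
  a₃ : v.valuation M W.a₃ ≤ 1
  a₄ : v.valuation M W.a₄ ≤ 1
  a₆ : v.valuation M W.a₆ ≤ 1

/-- Good reduction at `v`: there is a Weierstrass equation with coefficients integral at `v` whose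
discriminant is a unit at `v`. -/
def GoodReduction (v : HeightOneSpectrum (𝓞 M)) (W : WeierstrassCurve M) : Prop :=
  ∃ C : WeierstrassCurve.VariableChange M, IntegralAt v (C • W) ∧ v.valuation M (C • W).Δ = 1

/-- Split multiplicative reduction at `v`: there is a Weierstrass equation with coefficients
integral at `v` whose reduction has the singular point `(0, 0)` (`a₃`, `a₄`, `a₆` are zero modulo `v`),
which is a node (`b₂ = a₁ ^ 2 + 4 a₂` is a unit at `v`) with tangents `y = α x` defined over the residue
field (`α ^ 2 + a₁ α - a₂` is zero modulo `v`). -/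
def SplitMultiplicative (v : HeightOneSpectrum (𝓞 M)) (W : WeierstrassCurve M) : Prop :=
  ∃ C : WeierstrassCurve.VariableChange M, IntegralAt v (C • W) ∧
    v.valuation M (C • W).a₃ < 1 ∧ v.valuation M (C • W).a₄ < 1 ∧ v.valuation M (C • W).a₆ < 1 ∧
    v.valuation M (C • W).b₂ = 1 ∧
    ∃ α : M, v.valuation M α ≤ 1 ∧
      v.valuation M (α ^ 2 + (C • W).a₁ * α - (C • W).a₂) < 1

end reduction

section root

variable (F M : Type) [Field F] [NumberField F] [Field M] [NumberField M] [Algebra F M]

/-- The properties of the local root numbers `w(E / M_v)` at the primes `v` of `M`, for an elliptic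
curve `E` over `F`, which we use: they are signs, `1` for good reduction, `-1` for split multiplicative
reduction, and the same for primes conjugate over `F`. -/
structure LocalRootNumbers (E : WeierstrassCurve F) (w : HeightOneSpectrum (𝓞 M) → ℤ) :
    Prop where
  sign : ∀ v, w v = 1 ∨ w v = -1
  good : ∀ v, GoodReduction v (E.baseChange M) → w v = 1
  split : ∀ v, SplitMultiplicative v (E.baseChange M) → w v = -1
  conj : ∀ (σ : M ≃ₐ[F] M) (v v' : HeightOneSpectrum (𝓞 M)),
    (∀ x : M, v'.valuation M x = v.valuation M (σ x)) → w v' = w v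

/-- The global root number: the product of the local root numbers at all places; it is `-1` at
every infinite place. -/
noncomputable def rootNumber (w : HeightOneSpectrum (𝓞 M) → ℤ) : ℤ :=
  (-1) ^ Nat.card (InfinitePlace M) * ∏ᶠ v, w v

variable {F}

/-- The group `E(M)`. -/
abbrev points (p : 𝓞 F × 𝓞 F) : Type := ((curve p).baseChange M).toAffine.Point

/-- The rank of `E(M)`. -/
noncomputable def rank (p : 𝓞 F × 𝓞 F) : ℕ := Module.finrank ℤ (points M p)

/-- The parity conjecture holds for `E` over `M`, with even rank and root number `1`: for every system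
of local root numbers (such systems exist, and there are only finitely many primes with `w v ≠ 1`)
`(-1) ^ rank = w(E / M)`. -/
structure ParityHolds (p : 𝓞 F × 𝓞 F) : Prop where
  rank_even : Even (rank M p)
  exist : ∃ w, LocalRootNumbers F M (curve p) w
  finite : ∀ w, LocalRootNumbers F M (curve p) w → {v | w v ≠ 1}.Finite
  one : ∀ w, LocalRootNumbers F M (curve p) w → rootNumber M w = 1
  parity : ∀ w, LocalRootNumbers F M (curve p) w → (-1) ^ rank M p = rootNumber M w

end root

section tr

variable {F M : Type} [Field F] [NumberField F] [Field M] [NumberField M] [Algebra F M]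

theorem int_iff (v : HeightOneSpectrum (𝓞 M)) (W : WeierstrassCurve M) :
    IntegralAt v W ↔ Pool.Agent.N922.PX.IntegralAt v W :=
  ⟨fun h => ⟨h.1, h.2, h.3, h.4, h.5⟩, fun h => ⟨h.1, h.2, h.3, h.4, h.5⟩⟩

theorem good_iff (v : HeightOneSpectrum (𝓞 M)) (W : WeierstrassCurve M) :
    GoodReduction v W ↔ Pool.Agent.N922.PX.GoodReduction v W := by
  unfold GoodReduction Pool.Agent.N922.PX.GoodReduction
  simp only [int_iff]

theorem split_iff (v : HeightOneSpectrum (𝓞 M)) (W : WeierstrassCurve M) :
    SplitMultiplicative v W ↔ Pool.Agent.N922.PX.SplitMultiplicative v W := by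
  unfold SplitMultiplicative Pool.Agent.N922.PX.SplitMultiplicative
  simp only [int_iff]

theorem local_iff (E : WeierstrassCurve F) (w : HeightOneSpectrum (𝓞 M) → ℤ) :
    LocalRootNumbers F M E w ↔ Pool.Agent.Helper82.PT.Rn.LocF F M E w := by
  constructor
  · rintro ⟨h1, h2, h3, h4⟩
    exact ⟨h1, fun v h => h2 v ((good_iff v _).2 h), fun v h => h3 v ((split_iff v _).2 h), h4⟩
  · rintro ⟨h1, h2, h3, h4⟩
    exact ⟨h1, fun v h => h2 v ((good_iff v _).1 h), fun v h => h3 v ((split_iff v _).1 h), h4⟩

theorem crv_iff (X : ℝ) (p : 𝓞 F × 𝓞 F) : Pool.Agent.N783.PF.Crv X p ↔ p ∈ UpTo F X := by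
  have hb : BddAbove (Set.range fun σ : F →+* ℂ =>
      max (4 * ‖σ (p.1 : F)‖ ^ 3) (27 * ‖σ (p.2 : F)‖ ^ 2)) := Set.Finite.bddAbove (Set.finite_range _)
  constructor
  · rintro ⟨h1, h2, h3⟩
    refine ⟨⟨h1, h2⟩, ciSup_le fun σ => max_le (h3 σ).1 (h3 σ).2⟩
  · rintro ⟨⟨h1, h2⟩, h3⟩
    refine ⟨h1, h2, fun σ => ?_⟩
    have h4 := (le_ciSup hb σ).trans h3
    exact ⟨(le_max_left _ _).trans h4, (le_max_right _ _).trans h4⟩

end tr

/-- The parity conjecture holds for `E` over all Galois extensions `M / F` which contain `K` with
`[M : K] > 1` odd. -/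
def ParityOverOddExtensions (F K : Type) [Field F] [NumberField F] [Field K] [NumberField K]
    [Algebra F K] (p : 𝓞 F × 𝓞 F) : Prop :=
  ∀ (M : Type) [Field M] [NumberField M] [Algebra F M] [Algebra K M] [IsScalarTower F K M]
    [IsGalois F M], Odd (Module.finrank K M) → 1 < Module.finrank K M → ParityHolds M p

/-- Let `F` be any number field and `K / F` a Galois extension of degree `2 ^ n`, `n ≥ 1`, such that every
prime `v` of `F` above `2` splits completely in `K` (`K` embeds over `F` in the completion of `F` at `v`)
and every real place of `F` splits completely in `K` (every embedding of `F` in `ℝ` extends to `K`).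
There is `c > 0` such that for all large `X` at least `c` times the number of all members of the family
of height at most `X` satisfy the parity conjecture `(-1) ^ rk E(M) = w(E / M)`, with `w(E / M) = 1`, over
all Galois extensions `M / F` at once which contain `K` with `[M : K] > 1` odd. -/
theorem result (F K : Type) [Field F] [NumberField F] [Field K] [NumberField K] [Algebra F K]
    [IsGalois F K] (n : ℕ) (h1n : 1 ≤ n) (hn : Module.finrank F K = 2 ^ n)
    (h2 : ∀ v : HeightOneSpectrum (𝓞 F), (2 : 𝓞 F) ∈ v.asIdeal →
      Nonempty (K →ₐ[F] v.adicCompletion F))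
    (hr : ∀ σ : F →+* ℝ, ∃ ρ : K →+* ℝ, ρ.comp (algebraMap F K) = σ) :
    (∀ X : ℝ, (UpTo F X).Finite) ∧
    ∃ c : ℝ, 0 < c ∧ ∀ᶠ X : ℝ in atTop,
      0 < (UpTo F X).ncard ∧
      c * ((UpTo F X).ncard : ℝ) ≤ ({p ∈ UpTo F X | ParityOverOddExtensions F K p}.ncard : ℝ) := by
  have hset : ∀ X : ℝ, UpTo F X = {p : 𝓞 F × 𝓞 F | Pool.Agent.N783.PF.Crv X p} := by
    intro X
    ext p
    exact (crv_iff X p).symm
  obtain ⟨c, hc0, Y₀, h⟩ := Pool.Agent.Helper82.OD.two F K h2 hr n h1n hn
  have hfin : ∀ X : ℝ, (UpTo F X).Finite := fun X => by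
    rw [hset]
    exact (h X).1
  refine ⟨hfin, c, hc0, ?_⟩
  filter_upwards [eventually_ge_atTop Y₀] with X hX
  obtain ⟨h1, h3⟩ := (h X).2 hX
  rw [← hset] at h1 h3
  refine ⟨h1, h3.trans ?_⟩
  have h4 : {p : 𝓞 F × 𝓞 F | Pool.Agent.N783.PF.Crv X p ∧ Pool.Agent.Helper82.OD.GoodK F K p} ⊆
      {p ∈ UpTo F X | ParityOverOddExtensions F K p} := by
    rintro p ⟨hp, hg⟩
    refine ⟨(crv_iff X p).1 hp, ?_⟩
    intro M _ _ _ _ _ _ hodd _
    haveI : IsGalois K M := IsGalois.tower_top_of_isGalois F K M
    haveI : FiniteDimensional K M := Module.Finite.of_restrictScalars_finite ℚ K M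
    have k3 : Even (rank M p) := Pool.Agent.Helper82.OD.even_pts hodd (curve p) hg.fin
    have k4 : ∀ w, LocalRootNumbers F M (curve p) w →
        {v | w v ≠ 1}.Finite ∧ rootNumber M w = 1 := by
      intro w hw
      have hw1 := (local_iff (curve p) w).1 hw
      obtain ⟨m1, m2⟩ := hg.root _ (Pool.Agent.Helper82.OD.down hw1)
      obtain ⟨m3, m4⟩ := Pool.Agent.Helper82.OD.root_up hodd hw1 m1
      exact ⟨m3, m4.trans m2⟩
    obtain ⟨w, hw'⟩ := Pool.Agent.Helper82.PT.Rn.exists_local M (curve p)
    exact ⟨k3, ⟨w, (local_iff _ w).2 hw'⟩, fun w hw => (k4 w hw).1, fun w hw => (k4 w hw).2,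
      fun w hw => by rw [k3.neg_one_pow, (k4 w hw).2]⟩
  exact Nat.cast_le.2 (Set.ncard_le_ncard h4 ((hfin X).subset fun p hp => hp.1))

end Pool.Agent.Results.MP_02f36d_nt.NormalTwoComplement
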