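import Pool.Agent.Helper82.PT.Rn3

/-!
# The parity conjecture over 2-extensions of every number field, for a positive proportion of curves

Let `F` be ANY number field and `M / F` any Galois extension of degree `2 ^ n` whose Galois group is not
cyclic (for instance a biquadratic extension, or any extension with group `(ℤ/2)^n`, `D_4`, `Q_8`, ...) in
which all primes above `2` and all real places of `F` split completely. Ramification at the other
primes is arbitrary.

Theorem. For a positive proportion of the elliptic curves `E : y ^ 2 = x ^ 3 + A x + B` over `F`, ordered by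
height, the parity conjecture holds for `E` over `M`, unconditionally: `(-1) ^ rk E(M) = w(E / M)`. More
precisely `E(M)` is finite of odd order and `w(E / M) = 1`.

The local root numbers `w(E / M_v)` are signs; they are `1` if `E` has good reduction at `v` and `-1` if `E`
has split multiplicative reduction at `v`; and since `E` is defined over `F` they are the same for
primes which are conjugate under `Gal(M / F)`, for which the completions are isomorphic over the
completion of `F`. These properties are all that we use: we prove the equality for every function `w`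
with these properties, in particular for the local root numbers defined by the local constants.

The proof. (1) `Sel_2(E / M) = 0` for a positive proportion: this is the descent of
`MP_7cad78_nt.RankZeroEveryNumberField` (project PF of the library, over `F`) carried out over `M`
as in `MP_02f36d_nt.ParityOverTwoExtensions` (over `ℚ`). The curves found are twists by `D` of curves
`y ^ 2 = x ^ 3 + a x + b`, where `x ^ 3 + a x + b` is irreducible modulo the primes over the discriminant of
a generator of `M` and the primes dividing `D` split completely in `M`; a class over `M` which is fixed by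
the 2-group `Gal(M / F)` descends, and a 2-group acting on a nonzero vector space over `𝔽_2` has a nonzero
fixed vector. (2) The set of the finite primes with `w_v = -1` is finite and stable under
`G = Gal(M / F)`; a prime fixed by `G` is not over `2` (these split completely), has good reduction if it
divides the discriminant of the generator, and otherwise its inertia group is trivial, so `G` would be
a group of automorphisms of a finite field, hence cyclic. Hence the number of finite primes with
`w_v = -1` is even, and so is the number of infinite places, as `[M : F]` is divisible by `4`.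
-/

set_option autoImplicit false
set_option linter.all false

namespace Pool.Agent.Results.MP_02f36d_nt.TwoExtensionsEveryNumberField

open Filter NumberField IsDedekindDomain
open scoped Classical

section family

variable (F : Type) [Field F] [NumberField F]

/-- The pairs of integers `(A, B)` of `F` with `4 A ^ 3 + 27 B ^ 2 ≠ 0` for which no nonzero prime ideal
`𝔭` satisfies both `𝔭 ^ 4 ∣ A` and `𝔭 ^ 6 ∣ B`. -/
def Family : Set (𝓞 F × 𝓞 F) :=
  {p | 4 * p.1 ^ 3 + 27 * p.2 ^ 2 ≠ 0 ∧
    ∀ 𝔭 : Ideal (𝓞 F), 𝔭.IsPrime → 𝔭 ≠ ⊥ → ¬ (p.1 ∈ 𝔭 ^ 4 ∧ p.2 ∈ 𝔭 ^ 6)}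

variable {F}

/-- The height `max_σ max (4 |σ A|³, 27 |σ B|²)`, over the embeddings `σ : F → ℂ`. -/
noncomputable def height (p : 𝓞 F × 𝓞 F) : ℝ :=
  ⨆ σ : F →+* ℂ, max (4 * ‖σ (p.1 : F)‖ ^ 3) (27 * ‖σ (p.2 : F)‖ ^ 2)

/-- The curve `E : y ^ 2 = x ^ 3 + A x + B` over `F`. -/
def curve (p : 𝓞 F × 𝓞 F) : WeierstrassCurve F := ⟨0, 0, 0, (p.1 : F), (p.2 : F)⟩

variable (F)

/-- The members of the family of height at most `X`. -/
def UpTo (X : ℝ) : Set (𝓞 F × 𝓞 F) := {p ∈ Family F | height p ≤ X}

end family

section reduction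

variable {M : Type} [Field M] [NumberField M]

/-- The coefficients of the equation are integral at the prime `v`. -/
structure IntegralAt (v : HeightOneSpectrum (𝓞 M)) (W : WeierstrassCurve M) : Prop where
  a₁ : v.valuation M W.a₁ ≤ 1
  a₂ : v.valuation M W.a₂ ≤ 1
  a₃ : v.valuation M W.a₃ ≤ 1
  a₄ : v.valuation M W.a₄ ≤ 1
  a₆ : v.valuation M W.a₆ ≤ 1

/-- Good reduction at `v`: there is a Weierstrass equation with coefficients integral at `v` whose
discriminant is a unit at `v`. -/
def GoodReduction (v : HeightOneSpectrum (𝓞 M)) (W : WeierstrassCurve M) : Prop :=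
  ∃ C : WeierstrassCurve.VariableChange M, IntegralAt v (C • W) ∧ v.valuation M (C • W).Δ = 1

/-- Split multiplicative reduction at `v`: there is a Weierstrass equation with coefficients
integral at `v` whose reduction has the singular point `(0, 0)` (`a₃`, `a₄`, `a₆` are zero modulo `v`),
which is a node (`b₂ = a₁ ^ 2 + 4 a₂` is a unit at `v`) with tangents `y = α x` defined over the residue
field (`α ^ 2 + a₁ α - a₂` is zero modulo `v`). -/
def SplitMultiplicative (v : HeightOneSpectrum (𝓞 M)) (W : WeierstrassCurve M) : Prop :=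
  ∃ C : WeierstrassCurve.VariableChange M, IntegralAt v (C • W) ∧
    v.valuation M (C • W).a₃ < 1 ∧ v.valuation M (C • W).a₄ < 1 ∧ v.valuation M (C • W).a₆ < 1 ∧
    v.valuation M (C • W).b₂ = 1 ∧
    ∃ α : M, v.valuation M α ≤ 1 ∧
      v.valuation M (α ^ 2 + (C • W).a₁ * α - (C • W).a₂) < 1

end reduction

section root

variable (F M : Type) [Field F] [NumberField F] [Field M] [NumberField M] [Algebra F M]

/-- The properties of the local root numbers `w(E / M_v)` at the primes `v` of `M`, for an elliptic
curve `E` over `F`, which we use: they are signs, `1` for good reduction, `-1` for split multiplicative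
reduction, and the same for primes conjugate over `F`. -/
structure LocalRootNumbers (E : WeierstrassCurve F) (w : HeightOneSpectrum (𝓞 M) → ℤ) :
    Prop where
  sign : ∀ v, w v = 1 ∨ w v = -1
  good : ∀ v, GoodReduction v (E.baseChange M) → w v = 1
  split : ∀ v, SplitMultiplicative v (E.baseChange M) → w v = -1
  conj : ∀ (σ : M ≃ₐ[F] M) (v v' : HeightOneSpectrum (𝓞 M)),
    (∀ x : M, v'.valuation M x = v.valuation M (σ x)) → w v' = w v

/-- The global root number: the product of the local root numbers at all places; it is `-1` at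
every infinite place. -/
noncomputable def rootNumber (w : HeightOneSpectrum (𝓞 M) → ℤ) : ℤ :=
  (-1) ^ Nat.card (InfinitePlace M) * ∏ᶠ v, w v

variable {F}

/-- The group `E(M)`. -/
abbrev points (p : 𝓞 F × 𝓞 F) : Type := ((curve p).baseChange M).toAffine.Point

/-- The rank of `E(M)`. -/
noncomputable def rank (p : 𝓞 F × 𝓞 F) : ℕ := Module.finrank ℤ (points M p)

/-- The parity conjecture holds for `E` over `M`, with `E(M)` finite of odd order and root number `1`:
for every system of local root numbers (such systems exist, and there are only finitely many primes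
with `w v ≠ 1`) `(-1) ^ rank = w(E / M)`. -/
structure ParityHolds (p : 𝓞 F × 𝓞 F) : Prop where
  points_finite : Finite (points M p)
  odd : Odd (Nat.card (points M p))
  rank_zero : rank M p = 0
  exist : ∃ w, LocalRootNumbers F M (curve p) w
  finite : ∀ w, LocalRootNumbers F M (curve p) w → {v | w v ≠ 1}.Finite
  one : ∀ w, LocalRootNumbers F M (curve p) w → rootNumber M w = 1
  parity : ∀ w, LocalRootNumbers F M (curve p) w → (-1) ^ rank M p = rootNumber M w

end root

section tr

variable {F M : Type} [Field F] [NumberField F] [Field M] [NumberField M] [Algebra F M]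

theorem int_iff (v : HeightOneSpectrum (𝓞 M)) (W : WeierstrassCurve M) :
    IntegralAt v W ↔ Pool.Agent.N922.PX.IntegralAt v W :=
  ⟨fun h => ⟨h.1, h.2, h.3, h.4, h.5⟩, fun h => ⟨h.1, h.2, h.3, h.4, h.5⟩⟩

theorem good_iff (v : HeightOneSpectrum (𝓞 M)) (W : WeierstrassCurve M) :
    GoodReduction v W ↔ Pool.Agent.N922.PX.GoodReduction v W := by
  unfold GoodReduction Pool.Agent.N922.PX.GoodReduction
  simp only [int_iff]

theorem split_iff (v : HeightOneSpectrum (𝓞 M)) (W : WeierstrassCurve M) :
    SplitMultiplicative v W ↔ Pool.Agent.N922.PX.SplitMultiplicative v W := by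
  unfold SplitMultiplicative Pool.Agent.N922.PX.SplitMultiplicative
  simp only [int_iff]

theorem local_iff (E : WeierstrassCurve F) (w : HeightOneSpectrum (𝓞 M) → ℤ) :
    LocalRootNumbers F M E w ↔ Pool.Agent.Helper82.PT.Rn.LocF F M E w := by
  constructor
  · rintro ⟨h1, h2, h3, h4⟩
    exact ⟨h1, fun v h => h2 v ((good_iff v _).2 h), fun v h => h3 v ((split_iff v _).2 h), h4⟩
  · rintro ⟨h1, h2, h3, h4⟩
    exact ⟨h1, fun v h => h2 v ((good_iff v _).1 h), fun v h => h3 v ((split_iff v _).1 h), h4⟩

theorem crv_iff (X : ℝ) (p : 𝓞 F × 𝓞 F) : Pool.Agent.N783.PF.Crv X p ↔ p ∈ UpTo F X := by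
  have hb : BddAbove (Set.range fun σ : F →+* ℂ =>
      max (4 * ‖σ (p.1 : F)‖ ^ 3) (27 * ‖σ (p.2 : F)‖ ^ 2)) := Set.Finite.bddAbove (Set.finite_range _)
  constructor
  · rintro ⟨h1, h2, h3⟩
    refine ⟨⟨h1, h2⟩, ciSup_le fun σ => max_le (h3 σ).1 (h3 σ).2⟩
  · rintro ⟨⟨h1, h2⟩, h3⟩
    refine ⟨h1, h2, fun σ => ?_⟩
    have h4 := (le_ciSup hb σ).trans h3
    exact ⟨(le_max_left _ _).trans h4, (le_max_right _ _).trans h4⟩

theorem rank_eq_zero_of (p : 𝓞 F × 𝓞 F) (h : Finite (points M p)) : rank M p = 0 := by
  unfold rank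
  haveI := h
  refine Module.finrank_eq_zero_of_rank_eq_zero ?_
  rw [_root_.rank_eq_zero_iff]
  intro x
  refine ⟨(Nat.card (points M p) : ℤ), by exact_mod_cast Nat.card_pos.ne', ?_⟩
  rw [natCast_zsmul]
  exact card_nsmul_eq_zero'

theorem pts_of (p : 𝓞 F × 𝓞 F)
    (h1 : Finite (Pool.Agent.TH115.GD.Pt
      (Pool.Agent.N874.PP.sW (algebraMap F M (p.1 : F)) (algebraMap F M (p.2 : F))) M))
    (h2 : Odd (Nat.card (Pool.Agent.TH115.GD.Pt
      (Pool.Agent.N874.PP.sW (algebraMap F M (p.1 : F)) (algebraMap F M (p.2 : F))) M))) :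
    Finite (points M p) ∧ Odd (Nat.card (points M p)) := by
  have e : (Pool.Agent.N874.PP.sW (algebraMap F M (p.1 : F)) (algebraMap F M (p.2 : F))).baseChange M =
      (curve p).baseChange M := by
    apply WeierstrassCurve.ext <;>
      simp [Pool.Agent.N874.PP.sW, curve, WeierstrassCurve.baseChange]
  have key : ∀ W : WeierstrassCurve M,
      (Pool.Agent.N874.PP.sW (algebraMap F M (p.1 : F)) (algebraMap F M (p.2 : F))).baseChange M = W →
      Finite W.toAffine.Point ∧ Odd (Nat.card W.toAffine.Point) := by
    rintro W rfl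
    exact ⟨h1, h2⟩
  exact key _ e

end tr

/-- Let `F` be any number field and `M / F` a Galois extension of degree `2 ^ n` whose Galois group is
not cyclic, such that every prime `v` of `F` above `2` splits completely in `M` (`M` embeds over `F` in
the completion of `F` at `v`) and every real place of `F` splits completely in `M` (every embedding of
`F` in `ℝ` extends to `M`). There is `c > 0` such that for all large `X` at least `c` times the number of
all members of the family of height at most `X` satisfy the parity conjecture over `M`,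
`(-1) ^ rk E(M) = w(E / M)`, with `E(M)` finite of odd order and `w(E / M) = 1`. -/
theorem result (F M : Type) [Field F] [NumberField F] [Field M] [NumberField M] [Algebra F M]
    [IsGalois F M] (n : ℕ) (hn : Module.finrank F M = 2 ^ n) (hnc : ¬ IsCyclic (M ≃ₐ[F] M))
    (h2 : ∀ v : HeightOneSpectrum (𝓞 F), (2 : 𝓞 F) ∈ v.asIdeal →
      Nonempty (M →ₐ[F] v.adicCompletion F))
    (hr : ∀ σ : F →+* ℝ, ∃ ρ : M →+* ℝ, ρ.comp (algebraMap F M) = σ) :
    (∀ X : ℝ, (UpTo F X).Finite) ∧
    ∃ c : ℝ, 0 < c ∧ ∀ᶠ X : ℝ in atTop,
      0 < (UpTo F X).ncard ∧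
      c * ((UpTo F X).ncard : ℝ) ≤ ({p ∈ UpTo F X | ParityHolds M p}.ncard : ℝ) := by
  have hset : ∀ X : ℝ, UpTo F X = {p : 𝓞 F × 𝓞 F | Pool.Agent.N783.PF.Crv X p} := by
    intro X
    ext p
    exact (crv_iff X p).symm
  obtain ⟨γ, μ, δ, hγ, -⟩ := Pool.Agent.N160.QM.gen M
  obtain ⟨c, hc, Y₀, h⟩ := Pool.Agent.Helper82.PT.finM F M h2 hr n hn hγ
  have hfin : ∀ X : ℝ, (UpTo F X).Finite := fun X => by
    rw [hset]
    exact (h X).1
  refine ⟨hfin, c, hc, ?_⟩
  filter_upwards [eventually_ge_atTop Y₀] with X hX
  obtain ⟨h1, h3⟩ := (h X).2 hX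
  rw [← hset] at h1 h3
  refine ⟨h1, h3.trans ?_⟩
  have h4 : {p : 𝓞 F × 𝓞 F | Pool.Agent.N783.PF.Crv X p ∧ Pool.Agent.Helper82.PT.GoodP F M δ p} ⊆
      {p ∈ UpTo F X | ParityHolds M p} := by
    rintro p ⟨hp, hg⟩
    have hp' := (crv_iff X p).1 hp
    refine ⟨hp', ?_⟩
    obtain ⟨k1, k2⟩ := pts_of p hg.fin hg.odd
    have k3 : rank M p = 0 := rank_eq_zero_of p k1
    have k4 : ∀ w, LocalRootNumbers F M (curve p) w →
        {v | w v ≠ 1}.Finite ∧ rootNumber M w = 1 := fun w hw =>
      Pool.Agent.Helper82.PT.Rn.root_one h2 hn hnc hγ hp'.1.1 hg.red ((local_iff (curve p) w).1 hw)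
    obtain ⟨w, hw'⟩ := Pool.Agent.Helper82.PT.Rn.exists_local M (curve p)
    exact ⟨k1, k2, k3, ⟨w, (local_iff _ w).2 hw'⟩, fun w hw => (k4 w hw).1, fun w hw => (k4 w hw).2,
      fun w hw => by rw [k3, pow_zero, (k4 w hw).2]⟩
  exact Nat.cast_le.2 (Set.ncard_le_ncard h4 ((hfin X).subset fun p hp => hp.1))

end Pool.Agent.Results.MP_02f36d_nt.TwoExtensionsEveryNumberField
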